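import Mathlib
import Pool.Agent.H16.ORB.W

open Classical Finset Polynomial

namespace Pool.ORB
namespace H64

theorem acc1 (hL : LOCStmt) (M : OM) (P : ℕ[X]) (O O' : Set (List Bool)) (x : List Bool)
    (h : AgO (x.length + P.eval x.length) O O') : Acc M P O x ↔ Acc M P O' x := by
  obtain ⟨Q, _, hQ2, hQ3⟩ := hL M O (P.eval x.length) (M.init x)
  have h1 := hQ3 O' (fun s hs => (h s (by
    have := hQ2 s hs
    simpa [OM.init] using this)).symm)
  unfold Acc
  rw [h1]

theorem eval_al (en : Enu) (i m : ℕ) :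
    (al en i).eval m = (2 * m + 1 + (en i).2.2.eval m) +
      (en i).2.1.eval (2 * m + 1 + (en i).2.2.eval m) + (i + 2 * m + 1) := by
  simp [al, inl, Polynomial.eval_comp]

end H64

theorem acc (hL : LOCStmt) (hS : STRStmt) : ACCStmt := by
  refine ⟨H64.acc1 hL, ?_, ?_⟩
  · intro en i O O' x h
    rw [H64.eval_al] at h
    have key : ∀ w : List Bool, w.length = (en i).2.2.eval x.length →
        (Acc (en i).1 (en i).2.1 O (pair x w) ↔ Acc (en i).1 (en i).2.1 O' (pair x w)) := by
      intro w hw
      apply H64.acc1 hL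
      intro s hs
      apply h s
      rw [hS.1, hw] at hs
      omega
    constructor
    · rintro ⟨w, hw, ha⟩
      exact ⟨w, hw, (key w hw).1 ha⟩
    · rintro ⟨w, hw, ha⟩
      exact ⟨w, hw, (key w hw).2 ha⟩
  · intro en i m
    rw [H64.eval_al]
    constructor <;> omega

end Pool.ORB
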