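import Mathlib
import Pool.Agent.H16.ORB.W

open Classical Finset Polynomial

namespace Pool.ORB
namespace H64

/-- codes of actions -/
def actCode : Act → Option Bool ⊕ Unit
  | Act.keep => Sum.inr ()
  | Act.pop => Sum.inl none
  | Act.push b => Sum.inl (some b)

theorem actCode_inj : Function.Injective actCode := by
  intro a b h
  cases a <;> cases b <;> simp_all [actCode]

instance finAct : Finite Act := Finite.of_injective actCode actCode_inj

/-- The type of the rest of a machine. -/
abbrev Rest (k n : ℕ) : Type :=
  (Fin (n + 1) → Bool) ×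
    (Fin (n + 1) → Bool → (Fin (k + 1) → Option Bool) →
      Bool ⊕ (Fin (n + 1) × (Fin (k + 1) → Act)))

/-- A machine as an element of a sigma type. -/
def omCode (M : OM) : (k : ℕ) × (n : ℕ) × Rest k n := ⟨M.k, M.n, M.ask, M.tr⟩

theorem omCode_inj : Function.Injective omCode := by
  intro a b h
  cases a
  cases b
  simp only [omCode] at h
  cases h
  rfl

instance finRest (k n : ℕ) : Finite (Rest k n) := by
  unfold Rest
  infer_instance

instance cntOM : Countable OM := by
  have : ∀ k n : ℕ, Countable (Rest k n) := fun k n => Finite.to_countable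
  exact omCode_inj.countable

end H64

theorem enu : ENUStmt := by
  have := H64.cntOM
  have hP : Countable ℕ[X] := by
    rw [← Cardinal.mk_le_aleph0_iff]
    simp
  have hN : Nonempty (OM × ℕ[X] × ℕ[X]) :=
    ⟨(⟨0, 0, fun _ => false, fun _ _ _ => Sum.inl false⟩, 0, 0)⟩
  exact exists_surjective_nat _

end Pool.ORB
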