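import Mathlib
import Pool.Agent.H16.ORB.W

open Classical Finset

namespace Pool.ORB

theorem fix : FIXStmt := by
  intro A X lv Φ hX hΦ
  obtain ⟨x0⟩ := hX
  have key : ∀ n : ℕ, ∀ e : A, lv e < n → ∀ m : ℕ, n ≤ m →
      Φ^[m] (fun _ => x0) e = Φ^[n] (fun _ => x0) e := by
    intro n
    induction n with
    | zero => intro e he; omega
    | succ n ih =>
      intro e he m hm
      obtain ⟨m', rfl⟩ : ∃ m', m = m' + 1 := ⟨m - 1, by omega⟩
      rw [Function.iterate_succ_apply', Function.iterate_succ_apply']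
      apply hΦ
      intro e' he'
      exact ih e' (by omega) m' (by omega)
  refine ⟨fun e => Φ^[lv e + 1] (fun _ => x0) e, ?_⟩
  funext e
  show Φ (fun e => Φ^[lv e + 1] (fun _ => x0) e) e = Φ^[lv e + 1] (fun _ => x0) e
  rw [Function.iterate_succ_apply']
  apply hΦ
  intro e' he'
  show Φ^[lv e' + 1] (fun _ => x0) e' = Φ^[lv e] (fun _ => x0) e'
  exact (key (lv e' + 1) e' (by omega) (lv e) (by omega)).symm

end Pool.ORB
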