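import Mathlib
import Pool.Agent.H16.ORB.W

open Classical Finset

namespace Pool.ORB

theorem loc : LOCStmt := by
  intro M O t
  induction t with
  | zero =>
    intro c
    exact ⟨∅, by simp, by simp, fun O' _ => rfl⟩
  | succ t ih =>
    intro c
    -- the step with O
    rcases hst : M.step O c with b | c'
    · refine ⟨{c.2 0}, by simp, ?_, ?_⟩
      · intro s hs
        rw [Finset.mem_singleton] at hs
        subst hs
        omega
      · intro O' hO'
        have h0 : (c.2 0 ∈ O' ↔ c.2 0 ∈ O) := hO' _ (Finset.mem_singleton_self _)
        have hs : M.step O' c = M.step O c := by
          unfold OM.step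
          simp only [h0]
        simp only [OM.run, hs, hst]
    · obtain ⟨Q, hQ1, hQ2, hQ3⟩ := ih c'
      have hlen : (c'.2 0).length ≤ (c.2 0).length + 1 := by
        unfold OM.step at hst
        split at hst
        · cases hst
        · rename_i q act htr
          injection hst with hst
          subst hst
          show ((act 0).ap (c.2 0)).length ≤ _
          cases act 0 with
          | keep => simp [Act.ap]
          | pop => simp [Act.ap]; omega
          | push b => simp [Act.ap]
      refine ⟨insert (c.2 0) Q, ?_, ?_, ?_⟩
      · exact (Finset.card_insert_le _ _).trans (by omega)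
      · intro s hs
        rw [Finset.mem_insert] at hs
        rcases hs with rfl | hs
        · omega
        · have := hQ2 s hs
          omega
      · intro O' hO'
        have h0 : (c.2 0 ∈ O' ↔ c.2 0 ∈ O) := hO' _ (Finset.mem_insert_self _ _)
        have hs : M.step O' c = M.step O c := by
          unfold OM.step
          simp only [h0]
        have h1 := hQ3 O' (fun s hs => hO' s (Finset.mem_insert_of_mem hs))
        simp only [OM.run, hs, hst]
        exact h1

end Pool.ORB
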